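import Pool.Agent.Q264.EVM.Core

/-!
# Unions, intersections, and the matroids of linear codes
-/

set_option autoImplicit false

namespace Pool.Agent.Q264.EVM

open Finset

variable {α : Type} [Fintype α] [DecidableEq α]

/-- Rank at least `t`, or any function which vanishes on the independent sets. -/
theorem or_ev {r : Finset α → ℕ} (h : IsRank r)
    (hl : ∀ e ∈ E α, 1 ≤ r {e}) {t : ℕ} (ht1 : 1 ≤ t) (htr : t ≤ r (E α))
    (q : (α → Bool) → Bool)
    (hQ : ∀ x, r (sp x) = (sp x).card → q x = false) :
    Ev (fun x => decide (t ≤ r (sp x)) || q x) := by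
  refine indep_jump h hl ht1 htr _ ?_ ?_
  · intro S _ _ hr
    simp only [sp_ch]
    rw [hr]
    simp
  · intro S _ hc hr
    have h1 := hQ (ch S) (by rw [sp_ch, hr, hc])
    simp only [sp_ch]
    rw [h1, hr]
    simp
    omega

/-- Nullity at least `k`, and any function which is one on the spanning sets. -/
theorem and_ev {r : Finset α → ℕ} (h : IsRank r)
    (hl : ∀ e ∈ E α, r (E α \ {e}) = r (E α)) {k : ℕ} (hk : 1 ≤ k)
    (hkr : k + r (E α) ≤ Fintype.card α) (q : (α → Bool) → Bool)
    (hQ : ∀ x, r (sp x) = r (E α) → q x = true) :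
    Ev (fun x => decide (k + r (sp x) ≤ (sp x).card) && q x) := by
  refine span_jump h hl hk hkr _ ?_ ?_
  · intro S _ hc hr
    have h1 := hQ (ch S) (by rw [sp_ch, hr])
    simp only [sp_ch]
    rw [h1, hr, hc]
    simp
    omega
  · intro S _ hc hr
    simp only [sp_ch]
    rw [hr, hc]
    have : ¬ (k + r (E α) ≤ r (E α) + (k - 1)) := by omega
    simp [this]

section Code

variable {K : Type} [Field K]

/-- the words with support in `S` -/
def W (K : Type) [Field K] (S : Finset α) : Submodule K (α → K) where
  carrier := {c | ∀ i, i ∉ S → c i = 0}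
  add_mem' := by
    intro a b ha hb i hi
    simp [ha i hi, hb i hi]
  zero_mem' := by intro i _; rfl
  smul_mem' := by
    intro a b hb i hi
    simp [hb i hi]

omit [Fintype α] [DecidableEq α] in
theorem mem_W {S : Finset α} {c : α → K} : c ∈ W K S ↔ ∀ i, i ∉ S → c i = 0 := Iff.rfl

/-- the dimension of the words of `C` with support in `S` -/
noncomputable def dm (C : Submodule K (α → K)) (S : Finset α) : ℕ :=
  Module.finrank K (C ⊓ W K S : Submodule K (α → K))

theorem dm_empty (C : Submodule K (α → K)) : dm C ∅ = 0 := by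
  have : C ⊓ W K (∅ : Finset α) = ⊥ := by
    rw [eq_bot_iff]
    rintro c ⟨_, hc⟩
    rw [Submodule.mem_bot]
    funext i
    exact hc i (notMem_empty i)
  unfold dm
  rw [this, finrank_bot]

theorem dm_univ (C : Submodule K (α → K)) : dm C univ = Module.finrank K C := by
  have : C ⊓ W K (univ : Finset α) = C := by
    rw [inf_eq_left]
    intro c _ i hi
    exact absurd (mem_univ i) hi
  unfold dm
  rw [this]

theorem dm_mono (C : Submodule K (α → K)) {S T : Finset α} (h : S ⊆ T) : dm C S ≤ dm C T := by
  refine Submodule.finrank_mono ?_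
  rintro c ⟨h1, h2⟩
  exact ⟨h1, fun i hi => h2 i fun hS => hi (h hS)⟩

theorem dm_insert (C : Submodule K (α → K)) (i : α) (S : Finset α) :
    dm C (insert i S) ≤ dm C S + 1 := by
  unfold dm
  set U : Submodule K (α → K) := C ⊓ W K (insert i S) with hU
  let φ : U →ₗ[K] K := (LinearMap.proj i : (α → K) →ₗ[K] K).comp U.subtype
  have h1 := LinearMap.finrank_range_add_finrank_ker φ
  have h2 : Module.finrank K (LinearMap.range φ) ≤ 1 := by
    have := Submodule.finrank_le (LinearMap.range φ)
    rwa [Module.finrank_self] at this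
  have h3 : Module.finrank K (LinearMap.ker φ) ≤
      Module.finrank K (C ⊓ W K S : Submodule K (α → K)) := by
    have h4 : (LinearMap.ker φ).map U.subtype ≤ C ⊓ W K S := by
      rintro c ⟨d, hd, rfl⟩
      have hd0 : d.1 i = 0 := hd
      refine ⟨d.2.1, fun j hj => ?_⟩
      by_cases hji : j = i
      · rw [hji]; exact hd0
      · exact d.2.2 j (by simp [hji, hj])
    have h5 := Submodule.finrank_mono h4
    have h6 : Module.finrank K ((LinearMap.ker φ).map U.subtype) =
        Module.finrank K (LinearMap.ker φ) :=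
      LinearEquiv.finrank_eq (Submodule.equivMapOfInjective _ U.injective_subtype _).symm
    omega
  omega

theorem dm_union_le (C : Submodule K (α → K)) (S T : Finset α) :
    dm C (S ∪ T) ≤ dm C S + T.card := by
  induction T using Finset.induction_on with
  | empty => simp
  | insert a T ha ih =>
    have h1 := dm_insert C a (S ∪ T)
    have h2 : S ∪ insert a T = insert a (S ∪ T) := by
      ext z; simp only [mem_union, mem_insert]; tauto
    rw [h2, card_insert_of_notMem ha]
    omega

theorem dm_sub (C : Submodule K (α → K)) {S T : Finset α} (h : S ⊆ T) :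
    dm C T ≤ dm C S + (T.card - S.card) := by
  have h1 := dm_union_le C S (T \ S)
  rw [union_sdiff_of_subset h, card_sdiff_of_subset h] at h1
  exact h1

theorem dm_le (C : Submodule K (α → K)) (S : Finset α) : dm C S ≤ S.card := by
  have := dm_sub C (empty_subset S)
  rw [dm_empty] at this
  simpa using this

theorem dm_submod (C : Submodule K (α → K)) (S T : Finset α) :
    dm C S + dm C T ≤ dm C (S ∪ T) + dm C (S ∩ T) := by
  unfold dm
  rw [← Submodule.finrank_sup_add_finrank_inf_eq (C ⊓ W K S) (C ⊓ W K T)]
  refine add_le_add (Submodule.finrank_mono ?_) (Submodule.finrank_mono ?_)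
  · refine sup_le ?_ ?_
    · rintro c ⟨h1, h2⟩
      exact ⟨h1, fun i hi => h2 i fun hS => hi (mem_union_left _ hS)⟩
    · rintro c ⟨h1, h2⟩
      exact ⟨h1, fun i hi => h2 i fun hS => hi (mem_union_right _ hS)⟩
  · rintro c ⟨⟨h1, h2⟩, -, h3⟩
    refine ⟨h1, fun i hi => ?_⟩
    rw [mem_inter, not_and_or] at hi
    rcases hi with hi | hi
    · exact h2 i hi
    · exact h3 i hi

/-- the matroid of the code: size minus dimension of the shortened code -/
theorem code_rank (C : Submodule K (α → K)) : IsRank (fun S : Finset α => S.card - dm C S) := by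
  refine ⟨fun S => Nat.sub_le _ _, fun S T h => ?_, fun S T => ?_⟩
  · have h1 := dm_sub C h
    have h2 := card_le_card h
    have h3 := dm_le C T
    have h4 := dm_le C S
    omega
  · have h1 := dm_submod C S T
    have h2 := card_union_add_card_inter S T
    have h3 := dm_le C S
    have h4 := dm_le C T
    have h5 := dm_le C (S ∪ T)
    have h6 := dm_le C (S ∩ T)
    omega

theorem dm_image (C : Submodule K (α → K)) (σ : Equiv.Perm α)
    (hσ : ∀ c : α → K, c ∘ σ ∈ C ↔ c ∈ C) (S : Finset α) : dm C (S.image σ) = dm C S := by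
  unfold dm
  have h : (C ⊓ W K S : Submodule K (α → K)) =
      (C ⊓ W K (S.image σ)).map (LinearEquiv.funCongrLeft K K σ).toLinearMap := by
    ext c
    simp only [Submodule.mem_map, Submodule.mem_inf, mem_W]
    constructor
    · rintro ⟨h1, h2⟩
      refine ⟨c ∘ σ.symm, ⟨?_, fun i hi => ?_⟩, ?_⟩
      · rw [← hσ]
        have : (c ∘ σ.symm) ∘ σ = c := by funext i; simp
        rw [this]
        exact h1
      · apply h2
        intro hS
        exact hi (mem_image.2 ⟨_, hS, by simp⟩)
      · funext i
        simp [LinearEquiv.funCongrLeft_apply, LinearMap.funLeft_apply]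
    · rintro ⟨d, ⟨h1, h2⟩, rfl⟩
      refine ⟨(hσ d).2 h1, fun i hi => ?_⟩
      change d (σ i) = 0
      apply h2
      intro hS
      obtain ⟨j, hj, hij⟩ := mem_image.1 hS
      rw [σ.injective hij] at hj
      exact hi hj
  rw [h]
  exact (LinearEquiv.finrank_map_eq _ _).symm

/-- Functions which are determined by the size and the dimension of the shortened code. -/
theorem code_ev (C : Submodule K (α → K))
    (hC : ∀ i j : α, ∃ σ : Equiv.Perm α, σ i = j ∧ ∀ c : α → K, c ∘ σ ∈ C ↔ c ∈ C)
    (f : (α → Bool) → Bool) (hmono : Monotone f)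
    (hdet : ∀ x y, dm C (sp x) = dm C (sp y) → (sp x).card = (sp y).card → f x = f y)
    (hne : ∃ x y, f x ≠ f y) : Ev f := by
  refine rank_size (code_rank C) ?_ f hmono ?_ hne
  · intro i j
    obtain ⟨σ, h1, h2⟩ := hC i j
    refine ⟨σ, h1, fun S => ?_⟩
    rw [dm_image C σ h2, card_image_of_injective _ σ.injective]
  · intro x y h1 h2
    refine hdet x y ?_ h2
    have h3 := dm_le C (sp x)
    have h4 := dm_le C (sp y)
    omega

end Code

end Pool.Agent.Q264.EVM
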