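import Mathlib

/-!
# Decision trees for functions which jump on the independent or on the spanning sets of a matroid

The adversary of `Pool/Agent/Q295/EV/Rank.lean` and `Pool/Agent/Q330/EVJ/Jump.lean` (graph properties),
here for Boolean functions on an arbitrary finite set of variables.
-/

set_option autoImplicit false

namespace Pool.Agent.Q264.EVM

open Finset

variable {α : Type} [Fintype α] [DecidableEq α]

/-- Some decision tree of depth at most `k` computes `f`. -/
def DepthLe (k : ℕ) (f : (α → Bool) → Bool) : Prop :=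
  ∀ P : ℕ → ((α → Bool) → Bool) → Prop,
    (∀ (m : ℕ) (g : (α → Bool) → Bool), (∀ x y, g x = g y) → P m g) →
    (∀ (m : ℕ) (g : (α → Bool) → Bool) (i : α),
       P m (fun x => g (Function.update x i false)) →
       P m (fun x => g (Function.update x i true)) → P (m + 1) g) →
    P k f

/-- Every decision tree for `f` has depth at least the number of variables. -/
def Ev (f : (α → Bool) → Bool) : Prop := ∀ k, DepthLe k f → Fintype.card α ≤ k

/-- the characteristic function -/
def ch (S : Finset α) : α → Bool := fun i => decide (i ∈ S)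

/-- all variables -/
def E (α : Type) [Fintype α] : Finset α := univ

omit [DecidableEq α] in
theorem mem_E {e : α} : e ∈ E α := mem_univ e

omit [DecidableEq α] in
theorem card_E : (E α).card = Fintype.card α := card_univ

/-- The final choices of the adversary. -/
theorem finish (R : Finset α → Finset α → Prop)
    (hstep : ∀ A D, R A D → A ⊆ E α → D ⊆ E α → Disjoint A D → ∀ e ∈ E α, e ∉ A → e ∉ D →
      (∃ f ∈ E α, f ≠ e ∧ f ∉ A ∧ f ∉ D) → R (insert e A) D ∨ R A (insert e D)) (m : ℕ) :
    ∀ A D, R A D → A ⊆ E α → D ⊆ E α → Disjoint A D → (E α \ (A ∪ D)).card = m + 1 →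
      ∃ A' D' e, R A' D' ∧ A ⊆ A' ∧ D ⊆ D' ∧ A' ⊆ E α ∧ D' ⊆ E α ∧ Disjoint A' D' ∧ e ∈ E α ∧
        e ∉ A' ∧ e ∉ D' ∧ E α = insert e (A' ∪ D') := by
  induction m with
  | zero =>
    intro A D hR hA hD hAD hc
    obtain ⟨e, he⟩ := card_eq_one.1 hc
    have heE : e ∈ E α \ (A ∪ D) := by rw [he]; exact mem_singleton_self _
    rw [mem_sdiff, mem_union, not_or] at heE
    refine ⟨A, D, e, hR, Subset.rfl, Subset.rfl, hA, hD, hAD, heE.1, heE.2.1, heE.2.2, ?_⟩
    ext z
    constructor
    · intro hz
      by_cases h : z ∈ A ∪ D
      · exact mem_insert_of_mem h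
      · have : z ∈ E α \ (A ∪ D) := mem_sdiff.2 ⟨hz, h⟩
        rw [he, mem_singleton] at this
        exact this ▸ mem_insert_self _ _
    · intro hz
      rcases mem_insert.1 hz with h | h
      · exact h ▸ heE.1
      · rcases mem_union.1 h with h | h
        · exact hA h
        · exact hD h
  | succ m ih =>
    intro A D hR hA hD hAD hc
    have hc2 : 1 < (E α \ (A ∪ D)).card := by omega
    obtain ⟨e, he, f, hf, hef⟩ := one_lt_card.1 hc2
    rw [mem_sdiff, mem_union, not_or] at he hf
    rcases hstep A D hR hA hD hAD e he.1 he.2.1 he.2.2 ⟨f, hf.1, hef.symm, hf.2.1, hf.2.2⟩ with h | h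
    · have hc' : (E α \ (insert e A ∪ D)).card = m + 1 := by
        have : E α \ (insert e A ∪ D) = (E α \ (A ∪ D)).erase e := by
          ext z; simp only [mem_sdiff, mem_union, mem_insert, mem_erase]; tauto
        rw [this, card_erase_of_mem (mem_sdiff.2 ⟨he.1, by rw [mem_union, not_or]; exact he.2⟩), hc]
        omega
      obtain ⟨A', D', e', h1, h2, h3, h4⟩ := ih (insert e A) D h (insert_subset he.1 hA) hD
        (by rw [disjoint_insert_left]; exact ⟨he.2.2, hAD⟩) hc'
      exact ⟨A', D', e', h1, (subset_insert _ _).trans h2, h3, h4⟩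
    · have hc' : (E α \ (A ∪ insert e D)).card = m + 1 := by
        have : E α \ (A ∪ insert e D) = (E α \ (A ∪ D)).erase e := by
          ext z; simp only [mem_sdiff, mem_union, mem_insert, mem_erase]; tauto
        rw [this, card_erase_of_mem (mem_sdiff.2 ⟨he.1, by rw [mem_union, not_or]; exact he.2⟩), hc]
        omega
      obtain ⟨A', D', e', h1, h2, h3, h4⟩ := ih A (insert e D) h hA (insert_subset he.1 hD)
        (by rw [disjoint_insert_right]; exact ⟨he.2.1, hAD⟩) hc'
      exact ⟨A', D', e', h1, h2, (subset_insert _ _).trans h3, h4⟩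

/-- the restriction to a subcube -/
def res (A D : Finset α) (x : α → Bool) : α → Bool :=
  fun i => if i ∈ A then true else if i ∈ D then false else x i

/-- The adversary argument. -/
theorem engine (f : (α → Bool) → Bool)
    (R : Finset α → Finset α → Prop) (h0 : R ∅ ∅)
    (hstep : ∀ A D, R A D → A ⊆ E α → D ⊆ E α → Disjoint A D → ∀ e ∈ E α, e ∉ A → e ∉ D →
      (∃ f ∈ E α, f ≠ e ∧ f ∉ A ∧ f ∉ D) → R (insert e A) D ∨ R A (insert e D))
    (hfin : ∀ A D, R A D → A ⊆ E α → D ⊆ E α → Disjoint A D → ∀ e ∈ E α, e ∉ A → e ∉ D →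
      E α = insert e (A ∪ D) → f (ch (insert e A)) ≠ f (ch A)) : Ev f := by
  intro k hk
  have hE : ∀ A : Finset α, A ⊆ E α := fun A z _ => mem_univ z
  have key := hk (fun m g => ∀ A D, R A D → Disjoint A D → (∀ x, g x = f (res A D x)) →
    Fintype.card α ≤ m + A.card + D.card) ?_ ?_
  · have := key ∅ ∅ h0 (disjoint_empty_left _) (fun x => by
      have : res ∅ ∅ x = x := by funext i; simp [res]
      rw [this])
    simpa using this
  · intro m g hg A D hR hAD hgf
    by_contra hcon
    have hcard : (E α \ (A ∪ D)).card = Fintype.card α - (A.card + D.card) := by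
      rw [card_sdiff_of_subset (hE _), card_E, card_union_of_disjoint hAD]
    obtain ⟨A', D', e, g1, g2, g3, g4, g5, g6, g7, g8, g9, g10⟩ := finish R hstep
      ((E α \ (A ∪ D)).card - 1) A D hR (hE _) (hE _) hAD (by omega)
    have hne := hfin A' D' g1 g4 g5 g6 e g7 g8 g9 g10
    have e1 : res A D (ch A') = ch A' := by
      funext i
      unfold res ch
      by_cases hA : i ∈ A
      · simp [hA, g2 hA]
      · by_cases hD : i ∈ D
        · have : i ∉ A' := fun h => disjoint_left.1 g6 h (g3 hD)
          simp [hA, hD, this]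
        · simp [hA, hD]
    have e2 : res A D (ch (insert e A')) = ch (insert e A') := by
      funext i
      unfold res ch
      by_cases hA : i ∈ A
      · simp [hA, g2 hA]
      · by_cases hD : i ∈ D
        · have h1 : i ∉ A' := fun h => disjoint_left.1 g6 h (g3 hD)
          have h2 : i ≠ e := fun h => g9 (h ▸ g3 hD)
          simp [hA, hD, h1, h2]
        · simp [hA, hD]
    apply hne
    rw [← e1, ← e2, ← hgf, ← hgf]
    exact hg _ _
  · intro m g i h1 h2 A D hR hAD hgf
    by_cases hA : i ∈ A
    · have := h1 A D hR hAD (fun x => by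
        beta_reduce
        rw [hgf]
        congr 1
        funext j
        unfold res
        by_cases hj : j = i
        · subst hj; simp [hA]
        · simp [Function.update_of_ne hj])
      omega
    by_cases hD : i ∈ D
    · have := h1 A D hR hAD (fun x => by
        beta_reduce
        rw [hgf]
        congr 1
        funext j
        unfold res
        by_cases hj : j = i
        · subst hj; simp [hD]
        · simp [Function.update_of_ne hj])
      omega
    by_cases hex : ∃ f ∈ E α, f ≠ i ∧ f ∉ A ∧ f ∉ D
    · rcases hstep A D hR (hE _) (hE _) hAD i (mem_univ _) hA hD hex with h | h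
      · have := h2 (insert i A) D h (by rw [disjoint_insert_left]; exact ⟨hD, hAD⟩) (fun x => by
          beta_reduce
          rw [hgf]
          congr 1
          funext j
          unfold res
          by_cases hj : j = i
          · subst hj; simp [hA, hD]
          · simp [Function.update_of_ne hj, hj])
        rw [card_insert_of_notMem hA] at this
        omega
      · have := h1 A (insert i D) h (by rw [disjoint_insert_right]; exact ⟨hA, hAD⟩) (fun x => by
          beta_reduce
          rw [hgf]
          congr 1
          funext j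
          unfold res
          by_cases hj : j = i
          · subst hj; simp [hA]
          · simp [Function.update_of_ne hj, hj])
        rw [card_insert_of_notMem hD] at this
        omega
    · push Not at hex
      have : (E α) = insert i (A ∪ D) := by
        ext z
        simp only [mem_E, true_iff, mem_insert, mem_union]
        by_contra hcon
        push Not at hcon
        exact hcon.2.2 (hex z mem_E hcon.1 hcon.2.1)
      have hc := congrArg Finset.card this
      rw [card_E, card_insert_of_notMem (by simp [hA, hD]), card_union_of_disjoint hAD] at hc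
      omega

/-- The rank functions of matroids on the pairs. -/
structure IsRank (r : Finset α → ℕ) : Prop where
  le_card : ∀ S, r S ≤ S.card
  mono : ∀ S T, S ⊆ T → r S ≤ r T
  submod : ∀ S T, r (S ∪ T) + r (S ∩ T) ≤ r S + r T

theorem IsRank.insert_le {r : Finset α → ℕ} (h : IsRank r) (e : α)
    (S : Finset α) : r (insert e S) ≤ r S + 1 := by
  have h1 := h.submod {e} S
  have h2 := h.le_card {e}
  rw [card_singleton] at h2
  rw [insert_eq]
  omega

/-- Truncation. -/
theorem IsRank.trunc {r : Finset α → ℕ} (h : IsRank r) (k : ℕ) :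
    IsRank (fun S => min (r S) k) := by
  refine ⟨fun S => (min_le_left _ _).trans (h.le_card S), fun S T hST => ?_, fun S T => ?_⟩
  · have := h.mono S T hST
    omega
  · have h1 := h.submod S T
    have h2 := h.mono S (S ∪ T) subset_union_left
    have h3 := h.mono T (S ∪ T) subset_union_right
    have h4 := h.mono (S ∩ T) S inter_subset_left
    have h5 := h.mono (S ∩ T) T inter_subset_right
    omega

/-- The dual. -/
theorem IsRank.dual {r : Finset α → ℕ} (h : IsRank r) :
    IsRank (fun S => (S ∩ E α).card + r (E α \ S) - r (E α)) := by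
  have key : ∀ S : Finset α, r (E α) ≤ (S ∩ E α).card + r (E α \ S) := by
    intro S
    have h1 := h.submod (S ∩ E α) (E α \ S)
    have h2 := h.le_card (S ∩ E α)
    have h3 : S ∩ E α ∪ E α \ S = E α := by
      ext z; simp only [mem_union, mem_inter, mem_sdiff]; tauto
    rw [h3] at h1
    omega
  refine ⟨fun S => ?_, fun S T hST => ?_, fun S T => ?_⟩
  · have h1 := h.mono (E α \ S) (E α) sdiff_subset
    have h2 := card_le_card (inter_subset_left : S ∩ E α ⊆ S)
    omega
  · -- `r (E \ S) ≤ r (E \ T) + |(T \ S) ∩ E|`
    have h1 := h.submod (E α \ T) ((T \ S) ∩ E α)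
    have h2 := h.le_card ((T \ S) ∩ E α)
    have h3 : E α \ T ∪ ((T \ S) ∩ E α) = E α \ S := by
      ext z; simp only [mem_union, mem_inter, mem_sdiff]
      constructor
      · rintro (⟨a, b⟩ | ⟨⟨a, b⟩, c⟩)
        · exact ⟨a, fun h => b (hST h)⟩
        · exact ⟨c, b⟩
      · rintro ⟨a, b⟩
        by_cases hT : z ∈ T
        · exact Or.inr ⟨⟨hT, b⟩, a⟩
        · exact Or.inl ⟨a, hT⟩
    rw [h3] at h1
    have h4 : (T ∩ E α).card = (S ∩ E α).card + ((T \ S) ∩ E α).card := by
      rw [← card_union_of_disjoint]
      · congr 1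
        ext z; simp only [mem_union, mem_inter, mem_sdiff]
        constructor
        · rintro ⟨a, b⟩
          by_cases hS : z ∈ S
          · exact Or.inl ⟨hS, b⟩
          · exact Or.inr ⟨⟨a, hS⟩, b⟩
        · rintro (⟨a, b⟩ | ⟨⟨a, b⟩, c⟩)
          · exact ⟨hST a, b⟩
          · exact ⟨a, c⟩
      · rw [disjoint_left]
        intro z hz1 hz2
        exact (mem_sdiff.1 (mem_inter.1 hz2).1).2 (mem_inter.1 hz1).1
    have h5 := key S
    have h6 := key T
    omega
  · have h1 := h.submod (E α \ S) (E α \ T)
    have h2 : E α \ S ∪ E α \ T = E α \ (S ∩ T) := by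
      ext z; simp only [mem_union, mem_inter, mem_sdiff]; tauto
    have h3 : (E α \ S) ∩ (E α \ T) = E α \ (S ∪ T) := by
      ext z; simp only [mem_union, mem_inter, mem_sdiff]; tauto
    rw [h2, h3] at h1
    have h4 : ((S ∪ T) ∩ E α).card + ((S ∩ T) ∩ E α).card = (S ∩ E α).card + (T ∩ E α).card := by
      have e1 : (S ∪ T) ∩ E α = (S ∩ E α) ∪ (T ∩ E α) := by
        ext z; simp only [mem_union, mem_inter]; tauto
      have e2 : (S ∩ T) ∩ E α = (S ∩ E α) ∩ (T ∩ E α) := by
        ext z; simp only [mem_inter]; tauto
      rw [e1, e2, card_union_add_card_inter]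
    have h5 := key (S ∪ T)
    have h6 := key (S ∩ T)
    have h7 := key S
    have h8 := key T
    omega

/-- States of the adversary: the rank of the pairs that are not excluded is full, and every open pair
increases the rank of the accepted pairs. -/
def St (r : Finset α → ℕ) (A D : Finset α) : Prop :=
  r (E α \ D) = r (E α) ∧ ∀ e ∈ E α, e ∉ A → e ∉ D → r A < r (insert e A)

theorem st_step {r : Finset α → ℕ} (h : IsRank r) {A D : Finset α}
    (hS : St r A D) (hA : A ⊆ E α) (hAD : Disjoint A D) {e : α} (he : e ∈ E α)
    (heA : e ∉ A) (heD : e ∉ D) : St r (insert e A) D ∨ St r A (insert e D) := by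
  by_cases hc : r (E α \ insert e D) = r (E α)
  · right
    refine ⟨hc, fun f hf hfA hfD => hS.2 f hf hfA fun h => hfD (mem_insert_of_mem h)⟩
  · left
    refine ⟨hS.1, fun f hf hfA hfD => ?_⟩
    rw [mem_insert, not_or] at hfA
    have hfe : f ≠ e := hfA.1
    -- `e` is a coloop of the pairs that are not excluded
    have h1 := h.mono (E α \ insert e D) (E α) sdiff_subset
    have h2 : insert e (E α \ insert e D) = E α \ D := by
      ext z; simp only [mem_insert, mem_sdiff, not_or]
      constructor
      · rintro (h | ⟨a, b, c⟩)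
        · exact h ▸ ⟨he, heD⟩
        · exact ⟨a, c⟩
      · rintro ⟨a, b⟩
        by_cases hz : z = e
        · exact Or.inl hz
        · exact Or.inr ⟨a, hz, b⟩
    have h3 := h.submod (insert e (insert f A)) (E α \ insert e D)
    have h4 : insert e (insert f A) ∪ E α \ insert e D = E α \ D := by
      rw [← h2]
      ext z; simp only [mem_insert, mem_union, mem_sdiff, not_or]
      constructor
      · rintro ((h | h | h) | h)
        · exact Or.inl h
        · exact Or.inr ⟨h ▸ hf, h ▸ hfe, h ▸ hfD⟩
        · exact Or.inr ⟨hA h, fun hz => heA (hz ▸ h), disjoint_left.1 hAD h⟩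
        · exact Or.inr h
      · rintro (h | h)
        · exact Or.inl (Or.inl h)
        · exact Or.inr h
    have h5 : insert e (insert f A) ∩ (E α \ insert e D) = insert f A := by
      ext z; simp only [mem_insert, mem_inter, mem_sdiff, not_or]
      constructor
      · rintro ⟨h | h, a, b, c⟩
        · exact absurd h b
        · exact h
      · rintro (h | h)
        · exact ⟨Or.inr (Or.inl h), h ▸ hf, h ▸ hfe, h ▸ hfD⟩
        · exact ⟨Or.inr (Or.inr h), hA h, fun hz => heA (hz ▸ h), disjoint_left.1 hAD h⟩
    rw [h4, h5, hS.1] at h3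
    have h6 := hS.2 f hf hfA.2 hfD
    have h7 := h.insert_le e A
    have h8 : insert f (insert e A) = insert e (insert f A) := Finset.insert_comm _ _ _
    rw [h8]
    omega

theorem st_fin {r : Finset α → ℕ} {A D : Finset α}
    (hS : St r A D) (hAD : Disjoint A D) {e : α} (he : e ∈ E α)
    (heA : e ∉ A) (heD : e ∉ D) (hE : E α = insert e (A ∪ D)) :
    r (insert e A) = r (E α) ∧ r A < r (E α) := by
  have h1 : E α \ D = insert e A := by
    ext z
    rw [mem_sdiff, hE]
    simp only [mem_insert, mem_union]
    constructor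
    · rintro ⟨h | h | h, hD⟩
      · exact Or.inl h
      · exact Or.inr h
      · exact absurd h hD
    · rintro (h | h)
      · exact ⟨Or.inl h, h ▸ heD⟩
      · exact ⟨Or.inr (Or.inl h), disjoint_left.1 hAD h⟩
  have h2 := hS.1
  rw [h1] at h2
  exact ⟨h2, h2 ▸ hS.2 e he heA heD⟩

theorem ne_tf {a b : Bool} (ha : a = true) (hb : b = false) : a ≠ b := by
  rw [ha, hb]; decide

/-- The independent sets of size `t` have the property and those of size `t - 1` do not have it. -/
theorem indep_jump {r : Finset α → ℕ} (h : IsRank r)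
    (hl : ∀ e ∈ E α, 1 ≤ r {e}) {t : ℕ} (ht1 : 1 ≤ t) (htr : t ≤ r (E α))
    (f : (α → Bool) → Bool)
    (hP1 : ∀ S ⊆ E α, S.card = t → r S = t → f (ch S) = true)
    (hP0 : ∀ S ⊆ E α, S.card = t - 1 → r S = t - 1 → f (ch S) = false) : Ev f := by
  have ht := h.trunc t
  have hE : 1 ≤ Fintype.card α := by
    rw [← card_E]
    exact ht1.trans (htr.trans (h.le_card _))
  have h00 : r ∅ = 0 := by simpa using h.le_card ∅
  refine engine f (fun A D => St (fun S => min (r S) t) A D ∧ A.card = min (r A) t) ?_ ?_ ?_
  · refine ⟨⟨by simp, fun e he _ _ => ?_⟩, by simp [h00]⟩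
    have := hl e he
    simp only [insert_empty_eq, h00]
    omega
  · rintro A D ⟨hS, hc⟩ hA _ hAD e he heA heD _
    rcases st_step ht hS hA hAD he heA heD with h1 | h1
    · refine Or.inl ⟨h1, ?_⟩
      have h2 := hS.2 e he heA heD
      have h3 := ht.insert_le e A
      beta_reduce at h2 h3
      rw [card_insert_of_notMem heA]
      omega
    · exact Or.inr ⟨h1, hc⟩
  · rintro A D ⟨hS, hc⟩ hA _ hAD e he heA heD hEE
    obtain ⟨h1, h2⟩ := st_fin hS hAD he heA heD hEE
    have h3 := ht.insert_le e A
    beta_reduce at h1 h2 h3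
    have h4 := h.le_card (insert e A)
    rw [card_insert_of_notMem heA] at h4
    refine ne_tf ?_ ?_
    · refine hP1 _ (insert_subset he hA) ?_ ?_
      · rw [card_insert_of_notMem heA]
        omega
      · omega
    · refine hP0 _ hA ?_ ?_ <;> omega

/-- The spanning sets with `k` superfluous elements have the property and those with `k - 1`
superfluous elements do not have it. -/
theorem span_jump {r : Finset α → ℕ} (h : IsRank r)
    (hl : ∀ e ∈ E α, r (E α \ {e}) = r (E α)) {k : ℕ} (hk : 1 ≤ k)
    (hkr : k + r (E α) ≤ Fintype.card α) (f : (α → Bool) → Bool)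
    (hP1 : ∀ S ⊆ E α, S.card = r (E α) + k → r S = r (E α) → f (ch S) = true)
    (hP0 : ∀ S ⊆ E α, S.card = r (E α) + (k - 1) → r S = r (E α) → f (ch S) = false) : Ev f := by
  set rd : Finset α → ℕ := fun S => (S ∩ E α).card + r (E α \ S) - r (E α) with hrd
  have hd : IsRank rd := h.dual
  have hE : 1 ≤ Fintype.card α := by omega
  have hdE : rd (E α) = Fintype.card α - r (E α) := by
    rw [hrd]
    simp only [inter_self, sdiff_self, card_E]
    have h00 : r ∅ = 0 := by simpa using h.le_card ∅
    have : (∅ : Finset α) = ⊥ := rfl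
    rw [← this, h00]
    omega
  set k' := rd (E α) + 1 - k with hk'
  have ht := hd.trunc k'
  refine engine f (fun A D => St (fun S => min (rd S) k') D A ∧ D.card = min (rd D) k') ?_ ?_ ?_
  · have hd0 : rd ∅ = 0 := by simpa using hd.le_card ∅
    refine ⟨⟨by simp, fun e he _ _ => ?_⟩, by rw [hd0]; simp⟩
    have h1 := hl e he
    have h2 : rd {e} = 1 := by
      rw [hrd]
      simp only
      rw [singleton_inter_of_mem he, card_singleton, h1]
      omega
    have h3 : rd ∅ = 0 := by simpa using hd.le_card ∅
    simp only [insert_empty_eq, h2, h3]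
    omega
  · rintro A D ⟨hS, hc⟩ _ hD hAD e he heA heD _
    rcases st_step ht hS hD hAD.symm he heD heA with h1 | h1
    · refine Or.inr ⟨h1, ?_⟩
      have h2 := hS.2 e he heD heA
      have h3 := ht.insert_le e D
      beta_reduce at h2 h3
      rw [card_insert_of_notMem heD]
      omega
    · exact Or.inl ⟨h1, hc⟩
  · rintro A D ⟨hS, hc⟩ hA hD hAD e he heA heD hEE
    obtain ⟨h1, h2⟩ := st_fin hS hAD.symm he heD heA (by rw [hEE, union_comm A D])
    have h3 := ht.insert_le e D
    beta_reduce at h1 h2 h3
    -- `D = E \ (insert e A)` and `insert e D = E \ A`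
    have e1 : E α \ D = insert e A := by
      ext z
      rw [mem_sdiff, hEE]
      simp only [mem_insert, mem_union]
      constructor
      · rintro ⟨h | h | h, hD⟩
        · exact Or.inl h
        · exact Or.inr h
        · exact absurd h hD
      · rintro (h | h)
        · exact ⟨Or.inl h, h ▸ heD⟩
        · exact ⟨Or.inr (Or.inl h), disjoint_left.1 hAD h⟩
    have e2 : E α \ insert e D = A := by
      ext z
      rw [mem_sdiff, hEE]
      simp only [mem_insert, mem_union, not_or]
      constructor
      · rintro ⟨h | h | h, a, b⟩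
        · exact absurd h a
        · exact h
        · exact absurd h b
      · intro h
        exact ⟨Or.inr (Or.inl h), fun hz => heA (hz ▸ h), disjoint_left.1 hAD h⟩
    have hiA := insert_subset he hA
    have hiD := insert_subset he hD
    have c0 : (insert e D).card = D.card + 1 := card_insert_of_notMem heD
    have c1 : A.card = Fintype.card α - (insert e D).card := by
      rw [← e2, card_sdiff_of_subset hiD, card_E]
    have c2 : (insert e A).card = A.card + 1 := card_insert_of_notMem heA
    have c3 : (insert e D).card ≤ Fintype.card α := by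
      rw [← card_E]
      exact card_le_card hiD
    have r2 : rd (insert e D) = (insert e D ∩ E α).card + r (E α \ insert e D) - r (E α) := rfl
    rw [inter_eq_left.2 hiD, e2] at r2
    have m1 := h.mono A (E α) hA
    have m2 := h.mono A (insert e A) (subset_insert _ _)
    have m3 := h.mono (insert e A) (E α) hiA
    have hle := hd.le_card (insert e D)
    have key : r (E α) ≤ (Fintype.card α - A.card) + r A := by
      have h1 := h.submod A (E α \ A)
      have h2 := h.le_card (E α \ A)
      rw [union_sdiff_of_subset hA] at h1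
      rw [card_sdiff_of_subset hA, card_E] at h2
      omega
    refine ne_tf ?_ ?_
    · refine hP1 _ hiA ?_ ?_ <;> omega
    · refine hP0 _ hA ?_ ?_ <;> omega


/-- all elements are loops if one of them is -/
theorem loops {r : Finset α → ℕ} (h : IsRank r)
    (hi : ∀ i j : α, ∃ σ : Equiv.Perm α, σ i = j ∧ ∀ S, r (S.image σ) = r S) {e : α}
    (h0 : r {e} = 0) : ∀ S, r S = 0 := by
  have h1 : ∀ f, r {f} = 0 := by
    intro f
    obtain ⟨σ, hσ, hr⟩ := hi e f
    have := hr {e}
    rw [image_singleton, hσ] at this
    omega
  intro S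
  induction S using Finset.induction_on with
  | empty => simpa using h.le_card ∅
  | insert a S ha ih =>
    have i2 := h1 a
    have i3 := h.submod {a} S
    rw [← insert_eq] at i3
    omega

/-- all elements are coloops if one of them is -/
theorem coloops {r : Finset α → ℕ} (h : IsRank r)
    (hi : ∀ i j : α, ∃ σ : Equiv.Perm α, σ i = j ∧ ∀ S, r (S.image σ) = r S) {e : α}
    (h0 : r (E α \ {e}) ≠ r (E α)) : r (E α) = (E α).card := by
  have hlt : r (E α \ {e}) < r (E α) := lt_of_le_of_ne (h.mono _ _ sdiff_subset) h0
  have h1 : ∀ f, r (E α \ {f}) + 1 ≤ r (E α) := by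
    intro f
    obtain ⟨σ, hσ, hr⟩ := hi e f
    have := hr (E α \ {e})
    have himg : (E α).image σ = E α := by
      ext z
      simp only [mem_image, mem_E, iff_true, true_and]
      exact ⟨σ.symm z, by simp⟩
    rw [image_sdiff _ _ σ.injective, himg, image_singleton, hσ] at this
    omega
  have hall : ∀ S : Finset α, r (E α \ S) + S.card ≤ r (E α) := by
    intro S
    induction S using Finset.induction_on with
    | empty => simp
    | insert a S ha ih =>
      have i2 := h1 a
      have i3 := h.submod (E α \ S) (E α \ {a})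
      have e1 : E α \ S ∪ E α \ {a} = E α := by
        ext z
        simp only [mem_union, mem_sdiff, mem_singleton, mem_E, true_and, iff_true]
        by_cases hza : z = a
        · exact Or.inl (hza ▸ ha)
        · exact Or.inr hza
      have e2 : E α \ S ∩ (E α \ {a}) = E α \ insert a S := by
        ext z
        simp only [mem_inter, mem_sdiff, mem_singleton, mem_insert, not_or]
        tauto
      rw [e1, e2] at i3
      rw [card_insert_of_notMem ha]
      omega
  have := hall (E α)
  have h3 := h.le_card (E α)
  omega

omit [Fintype α] in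
/-- the cardinality is a rank function -/
theorem card_isRank : IsRank (fun S : Finset α => S.card) :=
  ⟨fun _ => le_rfl, fun _ _ h => card_le_card h, fun S T => (card_union_add_card_inter S T).le⟩

omit [Fintype α] in
theorem ch_mono {S T : Finset α} (h : S ⊆ T) : ch S ≤ ch T := by
  intro i
  unfold ch
  by_cases hi : i ∈ S
  · simp [hi, h hi]
  · simp [hi]

/-- the support -/
def sp (x : α → Bool) : Finset α := univ.filter fun i => x i = true

theorem ch_sp (x : α → Bool) : ch (sp x) = x := by
  funext i
  unfold ch sp
  cases h : x i <;> simp [h]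

theorem sp_ch (S : Finset α) : sp (ch S) = S := by
  ext i
  simp [ch, sp]

/-- Functions which are determined by the rank and the size. -/
theorem rank_size {r : Finset α → ℕ} (h : IsRank r)
    (hi : ∀ i j : α, ∃ σ : Equiv.Perm α, σ i = j ∧ ∀ S, r (S.image σ) = r S)
    (f : (α → Bool) → Bool) (hmono : Monotone f)
    (hdet : ∀ x y, r (sp x) = r (sp y) → (sp x).card = (sp y).card → f x = f y)
    (hne : ∃ x y, f x ≠ f y) : Ev f := by
  classical
  obtain ⟨x₀, x₁, hx0, hx1⟩ : ∃ x y, f x = false ∧ f y = true := by
    obtain ⟨x, y, hxy⟩ := hne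
    cases hx : f x <;> cases hy : f y
    · rw [hx, hy] at hxy; exact absurd rfl hxy
    · exact ⟨x, y, hx, hy⟩
    · exact ⟨y, x, hy, hx⟩
    · rw [hx, hy] at hxy; exact absurd rfl hxy
  have up : ∀ S T : Finset α, S ⊆ T → f (ch S) = true → f (ch T) = true := by
    intro S T hST hS
    have := hmono (ch_mono hST)
    rw [hS] at this
    exact Bool.eq_true_of_true_le this
  have hbot : f (ch ∅) = false := by
    by_contra hcon
    have h1 : f (ch ∅) = true := by simpa using hcon
    have h2 := up ∅ (sp x₀) (empty_subset _) h1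
    rw [ch_sp, hx0] at h2
    exact absurd h2 (by decide)
  have htop : f (ch (E α)) = true := by
    apply up (sp x₁) (E α) (fun z _ => mem_E)
    rw [ch_sp, hx1]
  have hdet' : ∀ S T : Finset α, r S = r T → S.card = T.card → f (ch S) = true →
      f (ch T) = true := by
    intro S T hr hc hP
    rw [← hP]
    exact (hdet _ _ (by rw [sp_ch, sp_ch, hr]) (by rw [sp_ch, sp_ch, hc])).symm
  have hr0 : r ∅ = 0 := by simpa using h.le_card ∅
  -- a general step: independent sets
  have hind : ∀ r' : Finset α → ℕ, IsRank r' → (∀ e ∈ E α, 1 ≤ r' {e}) →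
      (∀ S T : Finset α, r' S = r' T → S.card = T.card → r' S = S.card →
        f (ch S) = true → f (ch T) = true) →
      (∃ S : Finset α, r' S = S.card ∧ f (ch S) = true) → Ev f := by
    intro r' h' hl hd hex
    have hex2 : ∃ t, ∃ S : Finset α, r' S = S.card ∧ S.card = t ∧ f (ch S) = true := by
      obtain ⟨S, b, c⟩ := hex
      exact ⟨_, S, b, rfl, c⟩
    set t := Nat.find hex2 with htdef
    obtain ⟨S, hrS, hcS, hPS⟩ := Nat.find_spec hex2
    have ht1 : 1 ≤ t := by
      by_contra hcon
      have : t = 0 := by omega
      rw [← htdef, this, card_eq_zero] at hcS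
      rw [hcS, hbot] at hPS
      exact absurd hPS (by decide)
    refine indep_jump h' hl ht1 ?_ f ?_ ?_
    · rw [htdef, ← hcS, ← hrS]
      exact h'.mono _ _ fun z _ => mem_E
    · intro T hT hcT hrT
      refine hd S T ?_ ?_ hrS hPS
      · rw [hrS, hcS, hrT]
      · rw [hcS, hcT]
    · intro T hT hcT hrT
      by_contra hPT
      exact Nat.find_min hex2 (m := t - 1) (by omega)
        ⟨T, by rw [hrT, hcT], hcT, by simpa using hPT⟩
  by_cases hloop : ∀ e ∈ E α, 1 ≤ r {e}
  · by_cases hbase : ∃ S : Finset α, r S = S.card ∧ f (ch S) = true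
    · exact hind r h hloop (fun S T a b _ d => hdet' S T a b d) hbase
    · -- spanning sets
      have hcol : ∀ e ∈ E α, r (E α \ {e}) = r (E α) := by
        intro e he
        by_contra hcon
        exact hbase ⟨E α, coloops h hi hcon, htop⟩
      have hex2 : ∃ k, ∃ S : Finset α, r S = r (E α) ∧ S.card = r (E α) + k ∧ f (ch S) = true :=
        ⟨(E α).card - r (E α), E α, rfl, by have := h.le_card (E α); omega, htop⟩
      set k := Nat.find hex2 with hkdef
      obtain ⟨S, hrS, hcS, hPS⟩ := Nat.find_spec hex2
      have hk1 : 1 ≤ k := by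
        by_contra hcon
        have : k = 0 := by omega
        rw [← hkdef, this] at hcS
        exact hbase ⟨S, by omega, hPS⟩
      refine span_jump h hcol hk1 ?_ f ?_ ?_
      · have := card_le_card (fun z _ => mem_E : S ⊆ E α)
        rw [card_E] at this
        omega
      · intro T hT hcT hrT
        exact hdet' S T (by rw [hrS, hrT]) (by rw [hcS, hcT]) hPS
      · intro T hT hcT hrT
        by_contra hPT
        exact Nat.find_min hex2 (m := k - 1) (by omega) ⟨T, hrT, hcT, by simpa using hPT⟩
  · push Not at hloop
    obtain ⟨e, he, hre⟩ := hloop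
    have hall := loops h hi (by omega : r {e} = 0)
    refine hind _ card_isRank (fun e _ => by simp) ?_ ⟨E α, rfl, htop⟩
    intro S T _ hc _ hP
    exact hdet' S T (by rw [hall S, hall T]) hc hP

end Pool.Agent.Q264.EVM
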